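import Pool.Agent.Y867.WC.GaK

/-! # Waring's problem with almost all coefficients: `k + O(log k)` variables suffice

For `k ≥ 2`, `s ≥ k + 2 + ⌊log₂ k⌋` and almost every `θ = (θ₁, …, θ_s)` with positive entries:
every large real `τ` is within `τ ^ (-1/(8k(k+1)))` of some `θ₁ x₁ ^ k + ⋯ + θ_s x_s ^ k` with
positive integers `x_l`, and every large integer `n` is of the form
`⌊θ₁ x₁ ^ k + ⋯ + θ_s x_s ^ k⌋`.  With at most `k` variables the first property fails for every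
choice of the coefficients. -/

set_option autoImplicit false

open MeasureTheory

namespace Pool.Agent.Results.MP_570bef_nt.AlmostAllCoefficients

theorem result (k : ℕ) (hk : 2 ≤ k) :
    (∀ s : ℕ, k + 2 + Nat.log 2 k ≤ s → ∀ᵐ θ : Fin s → ℝ, (∀ l, 0 < θ l) →
      (∃ T : ℝ, ∀ τ : ℝ, T ≤ τ → ∃ x : Fin s → ℕ, (∀ l, 1 ≤ x l) ∧
        |∑ l, θ l * (x l : ℝ) ^ k - τ| < τ ^ (-(1 / (8 * (k : ℝ) * (k + 1))))) ∧
      (∃ N : ℕ, ∀ n : ℕ, N ≤ n → ∃ x : Fin s → ℕ, (∀ l, 1 ≤ x l) ∧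
        ⌊∑ l, θ l * (x l : ℝ) ^ k⌋₊ = n)) ∧
    (∀ s : ℕ, s ≤ k → ∀ θ : Fin s → ℝ, (∀ l, 0 < θ l) → ∀ κ : ℝ, 0 < κ → ∀ T : ℝ,
      ∃ τ : ℝ, T ≤ τ ∧ ∀ x : Fin s → ℕ, τ ^ (-κ) ≤ |∑ l, θ l * (x l : ℝ) ^ k - τ|) := by
  refine ⟨fun s hs => ?_, fun s hs θ hθ κ hκ T =>
    Pool.Agent.Y867.WC.lower k s (by omega) hs θ hθ κ hκ T⟩
  obtain ⟨j, rfl⟩ : ∃ j, k = j + 2 := ⟨k - 2, by omega⟩
  obtain ⟨t, rfl⟩ : ∃ t, s = j + 3 + t := ⟨s - (j + 3), by omega⟩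
  have ht : j + 2 < 2 ^ t := by
    have h1 : Nat.log 2 (j + 2) + 1 ≤ t := by omega
    exact (Nat.lt_pow_succ_log_self (by norm_num) _).trans_le (Nat.pow_le_pow_right (by norm_num) h1)
  filter_upwards [Pool.Agent.Y867.WC.main_real j t ht] with θ hθ hpos
  have h1 := hθ hpos
  have h2 : (8 : ℝ) * ((j + 2 : ℕ) : ℝ) * (((j + 2 : ℕ) : ℝ) + 1) = 8 * ((j : ℝ) + 2) * (j + 3) := by
    push_cast
    ring
  rw [h2]
  exact ⟨h1, Pool.Agent.Y867.WC.int_parts _ _ _ (by positivity) h1⟩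

end Pool.Agent.Results.MP_570bef_nt.AlmostAllCoefficients
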